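import Pool.Agent.H49.KT.Targets

/-!
Module CMP of the board kt_modules: comparison of the output with `p`.
-/

namespace Pool.Agent.H4.KT

open Turing Function Filter
open Pool.Agent.H49.KT

theorem pre_snoc (l x : List Bool) (a : Bool) :
    l ++ [a] <+: x ↔ l <+: x ∧ x[l.length]? = some a := by
  constructor
  · rintro ⟨t, rfl⟩
    refine ⟨⟨[a] ++ t, by simp⟩, by simp⟩
  · rintro ⟨⟨t, rfl⟩, h⟩
    rw [List.getElem?_append_right le_rfl, Nat.sub_self] at h
    cases t with
    | nil => simp at h
    | cons b t =>
      simp at h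
      subst h
      exact ⟨t, by simp⟩

theorem pf_CMP : T_CMP := by
  intro U v u z x hq hx
  have hxi : ∀ i, (((u U.tm.k₁).drop i).head?.map U.outputAlphabet) = x[i]? := by
    intro i
    rw [← hx, List.head?_drop, List.getElem?_map]
  have hxs : ∀ i, ((u U.tm.k₁).drop i).head?.isSome = (x[i]?).isSome := by
    intro i
    rw [← hxi, Option.isSome_map]
  have hqz : update (update z .p []) .q [] = update z .p [] := by
    rw [update_eq_self_iff]
    rw [update_of_ne (by decide), hq]
  obtain ⟨v₂, u₂, z₂, ⟨hR, rfl, rfl, hf⟩, ha, hS⟩ := sp_lp_inv (v := v.sf true) (u := u)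
    (z := z) (x := .p)
    (c := .seq (pusha .q) (.seq popk (.load (fun v => v.sf (v.f && v.g && (v.a == v.b))))))
    (z .p) rfl
    (fun i v' u' z' => Reg v v' ∧ u' = update u U.tm.k₁ ((u U.tm.k₁).drop i) ∧
      z' = update (update z .p []) .q ((z .p).take i).reverse ∧
      v'.f = decide ((z .p).take i <+: x))
    (fun _ => 3) (by rintro i v' u' z' a ⟨h1, h2, h3, h4⟩; exact ⟨h1, h2, h3, h4⟩)
    (by
      refine ⟨⟨rfl, rfl, rfl⟩, ?_, ?_, ?_⟩
      · simp
      · simp [hqz]
      · simp)
    (by
      rintro i hi v' u' z' ⟨h1, rfl, rfl, h4⟩ ha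
      have e1 := sp_pusha v' (update u U.tm.k₁ ((u U.tm.k₁).drop i))
        (update (update z .p []) .q ((z .p).take i).reverse) .q
      have e2 := sp_popk v' (update u U.tm.k₁ ((u U.tm.k₁).drop i))
        (update (update (update z .p []) .q ((z .p).take i).reverse) .q
          (v'.a :: (update (update z .p []) .q ((z .p).take i).reverse) .q))
      have e := e1.seq (e2.seq (sp_load _ _ _ (fun v => v.sf (v.f && v.g && (v.a == v.b)))))
      simp only [update_self, update_idem] at e
      rw [List.tail_drop] at e
      have ht : v'.a :: ((z .p).take i).reverse = ((z .p).take (i + 1)).reverse := by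
        rw [take_succ_rev _ _ hi, ha]
      rw [ht] at e
      refine ⟨_, _, _, ⟨?_, rfl, rfl, ?_⟩, e⟩
      · exact ⟨h1.1, h1.2.1, h1.2.2⟩
      · simp only [Mem.sf_f, Mem.sbg_f, Mem.sbg_g, Mem.sbg_a, Mem.sbg_b]
        rw [hxi, hxs, h4, List.take_succ_eq_append_getElem hi]
        rw [Bool.eq_iff_iff]
        simp only [Bool.and_eq_true, decide_eq_true_eq, beq_iff_eq]
        rw [pre_snoc, List.length_take, min_eq_left hi.le, ha, and_assoc]
        refine and_congr_right fun _ => ?_
        rcases x[i]? with _ | b
        · simp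
        · simp only [Option.isSome_some, Option.getD_some, true_and, Option.some.injEq]
          exact eq_comm)
  rw [List.take_length] at hf
  simp only [List.take_length] at hS
  have e0 := sp_load v u z (fun v => v.sf true)
  have e2 := sp_popk v₂ (update u U.tm.k₁ ((u U.tm.k₁).drop (z .p).length))
    (update (update z .p []) .q (z .p).reverse)
  simp only [update_self, update_idem] at e2
  rw [List.tail_drop, hxi, hxs] at e2
  set v₃ : MM U := v₂.sbg ((x[(z .p).length]?).getD false) (x[(z .p).length]?).isSome with hv₃
  have hR₃ : Reg v v₃ := ⟨hR.1, hR.2.1, hR.2.2⟩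
  have hp1 : ∀ b, z .p ++ [b] <+: x ↔ z .p <+: x ∧ x[(z .p).length]? = some b :=
    pre_snoc _ _
  have key : Spec (.ite (fun v => v.f && v.g)
      (.ite (fun v => v.b) (pushc .v1 true) (pushc .v0 true)) skip)
      (mkS v₃ (update u U.tm.k₁ ((u U.tm.k₁).drop ((z .p).length + 1)))
        (update (update z .p []) .q (z .p).reverse))
      (mkS v₃ (update u U.tm.k₁ ((u U.tm.k₁).drop ((z .p).length + 1)))
        (update (update (update (update z .p []) .q (z .p).reverse)
          .v1 (if z .p ++ [true] <+: x then true :: z .v1 else z .v1))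
          .v0 (if z .p ++ [false] <+: x then true :: z .v0 else z .v0))) 3 := by
    cases hg : (v₃.f && v₃.g)
    · have h1 : ∀ b, ¬ z .p ++ [b] <+: x := by
        intro b hb
        rw [hp1] at hb
        have h2 : (v₃.f && v₃.g) = true := by
          simp only [hv₃, Mem.sbg_f, Mem.sbg_g]
          rw [hf, hb.2]
          simpa using hb.1
        rw [hg] at h2
        exact absurd h2 (by decide)
      rw [if_neg (h1 _), if_neg (h1 _)]
      have e := Spec.ite_f (p := fun v : MM U => v.f && v.g)
        (c₁ := .ite (fun v => v.b) (pushc .v1 true) (pushc .v0 true)) hg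
        (sp_skip v₃ (update u U.tm.k₁ ((u U.tm.k₁).drop ((z .p).length + 1)))
          (update (update z .p []) .q (z .p).reverse))
      refine ⟨e.1.trans (congrArg _ ?_), e.2.trans (by omega)⟩
      funext k
      cases k <;> simp [update]
    · have h2 : z .p <+: x ∧ v₃.g = true := by
        rw [Bool.and_eq_true] at hg
        refine ⟨?_, hg.2⟩
        have := hg.1
        simp only [hv₃, Mem.sbg_f] at this
        rw [hf] at this
        exact of_decide_eq_true this
      have h3 : x[(z .p).length]? = some v₃.b := by
        have := h2.2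
        simp only [hv₃, Mem.sbg_g, Mem.sbg_b] at this ⊢
        revert this
        rcases x[(z .p).length]? with _ | b <;> simp
      cases hb : v₃.b
      · rw [hb] at h3
        rw [if_neg (by rw [hp1, h3]; simp), if_pos (by rw [hp1, h3]; exact ⟨h2.1, rfl⟩)]
        have e := Spec.ite_t (p := fun v : MM U => v.f && v.g)
          (c₁ := .ite (fun v => v.b) (pushc .v1 true) (pushc .v0 true)) (c₂ := skip) hg
          (Spec.ite_f (p := fun v : MM U => v.b) hb
          (sp_pushc v₃ (update u U.tm.k₁ ((u U.tm.k₁).drop ((z .p).length + 1)))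
            (update (update z .p []) .q (z .p).reverse) .v0 true))
        refine ⟨e.1.trans (congrArg _ ?_), e.2⟩
        funext k
        cases k <;> simp [update]
      · rw [hb] at h3
        rw [if_pos (by rw [hp1, h3]; exact ⟨h2.1, rfl⟩), if_neg (by rw [hp1, h3]; simp)]
        have e := Spec.ite_t (p := fun v : MM U => v.f && v.g)
          (c₁ := .ite (fun v => v.b) (pushc .v1 true) (pushc .v0 true)) (c₂ := skip) hg
          (Spec.ite_t (p := fun v : MM U => v.b) hb
          (sp_pushc v₃ (update u U.tm.k₁ ((u U.tm.k₁).drop ((z .p).length + 1)))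
            (update (update z .p []) .q (z .p).reverse) .v1 true))
        refine ⟨e.1.trans (congrArg _ ?_), e.2⟩
        funext k
        cases k <;> simp [update]
  have e3 := sp_mv v₃ (update u U.tm.k₁ ((u U.tm.k₁).drop ((z .p).length + 1)))
    (update (update (update (update z .p []) .q (z .p).reverse)
          .v1 (if z .p ++ [true] <+: x then true :: z .v1 else z .v1))
          .v0 (if z .p ++ [false] <+: x then true :: z .v0 else z .v0))
    (x := .q) (y := .p) (by decide)
  refine ⟨v₃.sa false, ⟨hR₃.1, hR₃.2.1, hR₃.2.2⟩, ?_⟩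
  have e := e0.seq (hS.seq (e2.seq (key.seq e3)))
  refine ⟨e.1.trans (congrArg _ ?_), e.2.trans ?_⟩
  · funext k
    cases k <;> simp [update, hq]
  · simp [update]
    omega

end Pool.Agent.H4.KT
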