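import Pool.Agent.H49.KT.Targets

/-!
Module FIN of the board kt_modules: decision and cleaning.
-/

namespace Pool.Agent.H4.KT

open Turing Function Filter
open Pool.Agent.H49.KT

section

variable {U : BM}

/-- loading the input stack from `pr`, keeping a copy in `p` -/
theorem load_pr (v : MM U) (u : UU U) (z : Nm → List Bool) :
    Spec (lp .pr (.seq (pusha .p) pushk)) (mkS v u z)
      (mkS (v.sa false)
        (update u U.tm.k₀ ((z .pr).reverse.map U.inputAlphabet.symm ++ u U.tm.k₀))
        (update (update z .pr []) .p ((z .pr).reverse ++ z .p))) (3 * (z .pr).length + 1) := by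
  have e := sp_lp (v := v) (u := u) (z := z) (x := .pr) (c := .seq (pusha .p) pushk) (z .pr) rfl
    (fun _ => v)
    (fun i => update u U.tm.k₀ (((z .pr).take i).reverse.map U.inputAlphabet.symm ++ u U.tm.k₀))
    (fun i => update (update z .pr []) .p (((z .pr).take i).reverse ++ z .p)) (fun _ => 2)
    ⟨v.a, rfl⟩ (by simp) (by
      simp only [List.take_zero, List.reverse_nil, List.nil_append]
      rw [update_eq_iff]
      exact ⟨by rw [update_of_ne (by decide)], fun _ _ => rfl⟩) (fun i hi => by
      refine ⟨(z .pr)[i], ?_⟩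
      have e1 := sp_pusha (v.sa (z .pr)[i])
        (update u U.tm.k₀ (((z .pr).take i).reverse.map U.inputAlphabet.symm ++ u U.tm.k₀))
        (update (update z .pr []) .p (((z .pr).take i).reverse ++ z .p)) .p
      have e2 := sp_pushk (v.sa (z .pr)[i])
        (update u U.tm.k₀ (((z .pr).take i).reverse.map U.inputAlphabet.symm ++ u U.tm.k₀))
        (update (update (update z .pr []) .p (((z .pr).take i).reverse ++ z .p)) .p
          ((v.sa (z .pr)[i]).a ::
            (update (update z .pr []) .p (((z .pr).take i).reverse ++ z .p)) .p))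
      have e := e1.seq e2
      simp only [update_self, update_idem, Mem.sa_a] at e
      simp only [take_succ_rev _ _ hi, List.cons_append, List.map_cons]
      exact e)
  simp only [List.take_length] at e
  refine e.mono ?_
  simp
  omega

/-- loading the input stack from `cr` -/
theorem load_cr (v : MM U) (u : UU U) (z : Nm → List Bool) :
    Spec (lp .cr pushk) (mkS v u z)
      (mkS (v.sa false)
        (update u U.tm.k₀ ((z .cr).reverse.map U.inputAlphabet.symm ++ u U.tm.k₀))
        (update z .cr [])) (2 * (z .cr).length + 1) := by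
  have e := sp_lp (v := v) (u := u) (z := z) (x := .cr) (c := pushk) (z .cr) rfl
    (fun _ => v)
    (fun i => update u U.tm.k₀ (((z .cr).take i).reverse.map U.inputAlphabet.symm ++ u U.tm.k₀))
    (fun _ => update z .cr []) (fun _ => 1)
    ⟨v.a, rfl⟩ (by simp) rfl (fun i hi => by
      refine ⟨(z .cr)[i], ?_⟩
      have e := sp_pushk (v.sa (z .cr)[i])
        (update u U.tm.k₀ (((z .cr).take i).reverse.map U.inputAlphabet.symm ++ u U.tm.k₀))
        (update z .cr [])
      simp only [update_self, update_idem, Mem.sa_a] at e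
      simp only [take_succ_rev _ _ hi, List.cons_append, List.map_cons]
      exact e)
  simp only [List.take_length] at e
  refine e.mono ?_
  simp
  omega

end

theorem hs_le (U : BM) (u : UU U) (c : ℕ) (h : ∀ k, (u k).length ≤ c) :
    hs U u ≤ (@Fintype.card U.tm.K U.tm.kFin) * c := by
  unfold hs
  have := U.tm.kFin
  refine (Finset.sum_le_sum fun k _ => h k).trans ?_
  rw [Finset.sum_const, smul_eq_mul]
  rfl

/-- the working stacks in this phase -/
def Zf (pr cr p m all clk q out : List Bool) : Nm → List Bool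
  | .pr => pr
  | .cr => cr
  | .p => p
  | .m => m
  | .all => all
  | .clk => clk
  | .q => q
  | .out => out
  | _ => []

theorem acc_eq (U : BM) (T : ℕ) (x : List Bool) :
    acc U T x = (((((at' U T x).stk U.tm.k₁).head?.map U.outputAlphabet).getD false) &&
      ((at' U T x).stk U.tm.k₁).head?.isSome && (at' U T x).l.isNone) := by
  unfold acc rawOut
  rw [List.head?_map]
  rcases ((at' U T x).stk U.tm.k₁).head? with _ | b <;> simp

theorem stk_len (U : BM) (B : ℕ)
    (hB : ∀ (c : CF U) (k : U.tm.K), ((fs U c).stk k).length ≤ (c.stk k).length + B)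
    (x : List Bool) (k : U.tm.K) : ∀ T : ℕ, ((at' U T x).stk k).length ≤ x.length + T * B := by
  intro T
  induction T with
  | zero =>
    show ((ini U x).stk k).length ≤ _
    unfold ini
    by_cases h : k = U.tm.k₀
    · subst h
      simp
    · simp [update_of_ne h]
  | succ T ih =>
    have h : at' U (T + 1) x = fs U (at' U T x) := by
      unfold at'
      rw [iterate_succ_apply']
    rw [h]
    refine (hB _ k).trans ?_
    rw [Nat.add_mul, Nat.one_mul]
    omega

theorem pf_FIN : T_CLK → T_RC → T_CLU → T_HT → T_STEP → T_FIN := by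
  intro hCLK hRC hCLU hHT _ U
  obtain ⟨B₁, hB₁⟩ := hRC U
  obtain ⟨B₂, hB₂⟩ := hCLU U
  obtain ⟨B₃, hB₃⟩ := hHT U
  set κ := @Fintype.card U.tm.K U.tm.kFin with hκ
  refine ⟨100 + B₁ + B₂ + 2 * κ * (B₃ + 1), ?_⟩
  intro v m A c P
  set cf : CF U := at' U (2 ^ m) (c ++ P) with hcf
  have hz₁ : update (update (update (update z₀ .pr P.reverse) .cr c.reverse) .m (un m)) .all
      (un A) = Zf P.reverse c.reverse [] (un m) (un A) [] [] [] := by
    funext k
    cases k <;> simp [update, z₀, Zf]
  rw [hz₁]
  -- loading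
  have e1 : Spec (lp .pr (.seq (pusha .p) pushk))
      (mkS v (E₀ U) (Zf P.reverse c.reverse [] (un m) (un A) [] [] []))
      (mkS (v.sa false) (update (E₀ U) U.tm.k₀ (P.map U.inputAlphabet.symm))
        (Zf [] c.reverse P (un m) (un A) [] [] [])) (3 * P.length + 1) := by
    have e := load_pr v (E₀ U) (Zf P.reverse c.reverse [] (un m) (un A) [] [] [])
    refine ⟨e.1.trans ?_, e.2.trans (by simp [Zf])⟩
    have h1 : update (update (Zf P.reverse c.reverse [] (un m) (un A) [] [] []) .pr []) .p
        ((Zf P.reverse c.reverse [] (un m) (un A) [] [] [] .pr).reverse ++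
        (Zf P.reverse c.reverse [] (un m) (un A) [] [] [] .p)) =
        Zf [] c.reverse P (un m) (un A) [] [] [] := by
      funext k
      cases k <;> simp [update, Zf]
    rw [h1]
    simp [Zf, E₀]
  have e2 : Spec (lp .cr pushk)
      (mkS (v.sa false) (update (E₀ U) U.tm.k₀ (P.map U.inputAlphabet.symm))
        (Zf [] c.reverse P (un m) (un A) [] [] []))
      (mkS (v.sa false) (update (E₀ U) U.tm.k₀ ((c ++ P).map U.inputAlphabet.symm))
        (Zf [] [] P (un m) (un A) [] [] [])) (2 * c.length + 1) := by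
    have e := load_cr (v.sa false) (update (E₀ U) U.tm.k₀ (P.map U.inputAlphabet.symm))
      (Zf [] c.reverse P (un m) (un A) [] [] [])
    refine ⟨e.1.trans ?_, e.2.trans (by simp [Zf])⟩
    have h1 : update (Zf [] c.reverse P (un m) (un A) [] [] []) .cr [] =
        Zf [] [] P (un m) (un A) [] [] [] := by
      funext k
      cases k <;> simp [update, Zf]
    rw [h1]
    simp [Zf]
  -- clock
  obtain ⟨v₃, hR₃, e3'⟩ := hCLK U (v.sa false)
    (update (E₀ U) U.tm.k₀ ((c ++ P).map U.inputAlphabet.symm))
    (Zf [] [] P (un m) (un A) [] [] []) m rfl rfl rfl rfl rfl rfl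
  have e3 : Spec mkClk
      (mkS (v.sa false) (update (E₀ U) U.tm.k₀ ((c ++ P).map U.inputAlphabet.symm))
        (Zf [] [] P (un m) (un A) [] [] []))
      (mkS v₃ (update (E₀ U) U.tm.k₀ ((c ++ P).map U.inputAlphabet.symm))
        (Zf [] [] P (un m) (un A) (un (2 ^ m)) [] [])) (7 * 2 ^ m + 8 * m + 10) := by
    refine ⟨e3'.1.trans (congrArg _ ?_), e3'.2.trans (by simp [Zf])⟩
    funext k
    cases k <;> simp [update, Zf]
  -- start
  have e4 := sp_load v₃ (update (E₀ U) U.tm.k₀ ((c ++ P).map U.inputAlphabet.symm))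
    (Zf [] [] P (un m) (un A) (un (2 ^ m)) [] [])
    (fun v => v.slu (some U.tm.main) U.tm.initialState)
  -- run
  have e5 : Spec runClk
      (mkS (v₃.slu (some U.tm.main) U.tm.initialState)
        (update (E₀ U) U.tm.k₀ ((c ++ P).map U.inputAlphabet.symm))
        (Zf [] [] P (un m) (un A) (un (2 ^ m)) [] []))
      (mkS (v₃.slu cf.l cf.var) cf.stk (Zf [] [] P (un m) (un A) [] [] []))
      (B₁ * 2 ^ m + 1) := by
    have e := hB₁ (v₃.slu (some U.tm.main) U.tm.initialState)
      (update (E₀ U) U.tm.k₀ ((c ++ P).map U.inputAlphabet.symm))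
      (Zf [] [] P (un m) (un A) (un (2 ^ m)) [] []) (2 ^ m) rfl
    refine ⟨e.1.trans ?_, e.2⟩
    have h1 : update (Zf [] [] P (un m) (un A) (un (2 ^ m)) [] []) .clk [] =
        Zf [] [] P (un m) (un A) [] [] [] := by
      funext k
      cases k <;> simp [update, Zf]
    rw [h1]
    rfl
  -- pop
  have e6 := sp_popk (v₃.slu cf.l cf.var) cf.stk (Zf [] [] P (un m) (un A) [] [] [])
  set v₆ : MM U := (v₃.slu cf.l cf.var).sbg (((cf.stk U.tm.k₁).head?.map U.outputAlphabet).getD
    false) (cf.stk U.tm.k₁).head?.isSome with hv₆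
  set u₆ : UU U := update cf.stk U.tm.k₁ (cf.stk U.tm.k₁).tail with hu₆
  have e7 := sp_load v₆ u₆ (Zf [] [] P (un m) (un A) [] [] [])
    (fun v => v.sf (v.b && v.g && v.l.isNone && (v.mode == 2)))
  set χ : Bool := acc U (2 ^ m) (c ++ P) && (v.mode == 2) with hχ
  have hf : (v₆.b && v₆.g && v₆.l.isNone && (v₆.mode == 2)) = χ := by
    have hm : v₆.mode = v.mode := hR₃.2.2
    rw [hm, hχ, acc_eq]
    rfl
  -- clear
  have e8 := hB₂ (v₆.sf (v₆.b && v₆.g && v₆.l.isNone && (v₆.mode == 2))) u₆
    (Zf [] [] P (un m) (un A) [] [] [])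
  rw [hf] at e7 e8
  set v₈ : MM U := (v₆.sf χ).slu none U.tm.initialState with hv₈
  have hhs : hs U u₆ ≤ κ * (c.length + P.length + 2 ^ m * B₃) := by
    refine hs_le U u₆ _ fun k => ?_
    have h1 : (u₆ k).length ≤ (cf.stk k).length := by
      by_cases hk : k = U.tm.k₁
      · subst hk
        rw [hu₆, update_self, List.length_tail]
        omega
      · rw [hu₆, update_of_ne hk]
    refine h1.trans ?_
    have := stk_len U B₃ (fun c k => (hB₃ c k).1) (c ++ P) k (2 ^ m)
    rw [List.length_append] at this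
    exact this
  -- output
  have e9 : ∃ v₉ : MM U, Spec (.ite (fun v => v.f) (.seq (mv .p .q) (mv .q .out)) (clr .p))
      (mkS v₈ (E₀ U) (Zf [] [] P (un m) (un A) [] [] []))
      (mkS v₉ (E₀ U) (Zf [] [] [] (un m) (un A) [] [] (if χ then P else [])))
      (4 * P.length + 3) := by
    cases hc : χ
    · refine ⟨v₈.sa false, ?_⟩
      have e := Spec.ite_f (p := fun v : MM U => v.f) (c₁ := .seq (mv .p .q) (mv .q .out))
        (s := mkS v₈ (E₀ U) (Zf [] [] P (un m) (un A) [] [] []))
        (by rw [mkS_v]; exact hc) (sp_clr v₈ (E₀ U) (Zf [] [] P (un m) (un A) [] [] []) (x := .p))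
      refine ⟨e.1.trans (congrArg _ ?_), e.2.trans ?_⟩
      · funext k
        cases k <;> simp [update, Zf]
      · simp only [Zf]
        omega
    · refine ⟨(v₈.sa false).sa false, ?_⟩
      have e := Spec.ite_t (p := fun v : MM U => v.f) (c₂ := clr .p)
        (s := mkS v₈ (E₀ U) (Zf [] [] P (un m) (un A) [] [] []))
        (by rw [mkS_v]; exact hc)
        ((sp_mv v₈ (E₀ U) (Zf [] [] P (un m) (un A) [] [] []) (x := .p) (y := .q)
          (by decide)).seq (sp_mv _ _ _ (x := .q) (y := .out) (by decide)))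
      refine ⟨e.1.trans (congrArg _ ?_), e.2.trans ?_⟩
      · funext k
        cases k <;> simp [update, Zf]
      · simp [Zf, update]
        omega
  obtain ⟨v₉, e9⟩ := e9
  have e10 := sp_clr v₉ (E₀ U) (Zf [] [] [] (un m) (un A) [] [] (if χ then P else [])) (x := .m)
  have e11 := sp_clr (v₉.sa false) (E₀ U)
    (update (Zf [] [] [] (un m) (un A) [] [] (if χ then P else [])) .m []) (x := .all)
  have hdec := e1.seq (e2.seq (e3.seq (e4.seq (e5.seq (e6.seq e7)))))
  have hfin := e8.seq (e9.seq (e10.seq e11))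
  have e := hdec.seq hfin
  refine ⟨(v₉.sa false).sa false, ?_⟩
  refine ⟨e.1.trans (congrArg _ ?_), e.2.trans ?_⟩
  · funext k
    cases k <;> simp [update, Zf, z₀]
  · simp only [Zf, List.length_replicate]
    have h1 : (update (Zf [] [] [] (un m) (un A) [] [] (if χ then P else [])) Nm.m []
      Nm.all).length = A := by simp [update, Zf]
    rw [h1]
    obtain ⟨M, hM⟩ : ∃ M, M = 2 ^ m := ⟨_, rfl⟩
    rw [← hM] at hhs ⊢
    have h2 : 2 * hs U u₆ ≤ 2 * κ * (B₃ + 1) * (M + m + P.length + c.length + A + 1) := by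
      refine (Nat.mul_le_mul_left 2 hhs).trans ?_
      rw [mul_assoc 2 κ, mul_assoc 2, mul_assoc κ]
      refine Nat.mul_le_mul_left 2 (Nat.mul_le_mul_left κ ?_)
      nlinarith [Nat.zero_le (B₃ * m), Nat.zero_le (B₃ * P.length), Nat.zero_le (B₃ * c.length),
        Nat.zero_le (B₃ * A)]
    have h3 : B₁ * M ≤ B₁ * (M + m + P.length + c.length + A + 1) :=
      Nat.mul_le_mul_left _ (by omega)
    have h4 : B₂ ≤ B₂ * (M + m + P.length + c.length + A + 1) :=
      Nat.le_mul_of_pos_right _ (by omega)
    have h5 : (100 + B₁ + B₂ + 2 * κ * (B₃ + 1)) * (M + m + P.length + c.length + A + 1) =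
      100 * (M + m + P.length + c.length + A + 1) + B₁ * (M + m + P.length + c.length + A + 1) +
      B₂ * (M + m + P.length + c.length + A + 1) +
      2 * κ * (B₃ + 1) * (M + m + P.length + c.length + A + 1) := by ring
    rw [h5]
    omega

end Pool.Agent.H4.KT
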