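import Pool.Agent.H49.KT.Targets

/-!
Module LOW of the board kt_modules: the lower bound for deciders.
-/

namespace Pool.Agent.H4.KT

open Turing Function Filter
open Pool.Agent.H49.KT

theorem fs_halt (U : BM) (c : CF U) (h : c.l = none) : fs U c = c := by
  obtain ⟨l, v, S⟩ := c
  simp only at h
  subst h
  rfl

theorem at_succ (U : BM) (T : ℕ) (x : List Bool) : at' U (T + 1) x = fs U (at' U T x) := by
  unfold at'
  rw [iterate_succ_apply']

theorem at_halt (U : BM) (x : List Bool) {T₀ : ℕ} (h : (at' U T₀ x).l = none) :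
    ∀ {T : ℕ}, T₀ ≤ T → at' U T x = at' U T₀ x := by
  intro T hT
  induction T, hT using Nat.le_induction with
  | base => rfl
  | succ T _ ih => rw [at_succ, ih, fs_halt U _ h]

theorem at_halt₂ (U : BM) (x : List Bool) {T₀ T : ℕ} (h : (at' U T₀ x).l = none)
    (h' : (at' U T x).l = none) : at' U T x = at' U T₀ x := by
  rcases le_total T₀ T with hT | hT
  · exact at_halt U x h hT
  · exact (at_halt U x h' hT).symm

theorem pow_le_of_logb (n a t : ℕ) (h : (n : ℝ) ≤ a + Real.logb 2 t) :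
    2 ^ n ≤ 2 ^ a * (t + 1) := by
  have h0 : Real.logb 2 t ≤ Real.logb 2 (t + 1) := by
    rcases Nat.eq_zero_or_pos t with rfl | ht
    · simp
    · exact Real.logb_le_logb_of_le (by norm_num) (by exact_mod_cast ht) (by linarith)
  have h1 : (n : ℝ) - a ≤ Real.logb 2 (t + 1) := by linarith
  rw [Real.le_logb_iff_rpow_le (by norm_num) (by positivity), Real.rpow_sub (by norm_num),
    Real.rpow_natCast, Real.rpow_natCast, div_le_iff₀ (by positivity)] at h1
  have h2 : ((2 ^ n : ℕ) : ℝ) ≤ ((2 ^ a * (t + 1) : ℕ) : ℝ) := by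
    push_cast
    linarith
  exact_mod_cast h2

theorem pow_lt_of_logb (n a t : ℕ) (ht : 1 ≤ t) (h : (a : ℝ) + Real.logb 2 t < n) :
    2 ^ a * t < 2 ^ n := by
  have ht' : (0 : ℝ) < t := by exact_mod_cast ht
  have h1 : Real.logb 2 t < (n : ℝ) - a := by linarith
  rw [Real.logb_lt_iff_lt_rpow (by norm_num) ht', Real.rpow_sub (by norm_num),
    Real.rpow_natCast, Real.rpow_natCast, lt_div_iff₀ (by positivity)] at h1
  have h2 : ((2 ^ a * t : ℕ) : ℝ) < ((2 ^ n : ℕ) : ℝ) := by
    push_cast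
    linarith
  exact_mod_cast h2

theorem size_le (n : ℕ) : n.size ≤ n := Nat.size_le.2 Nat.lt_two_pow_self

theorem two_pow_size_le (n : ℕ) (hn : 0 < n) : 2 ^ n.size ≤ 2 * n := by
  have h : n.size - 1 < n.size := Nat.sub_lt (Nat.size_pos.2 hn) Nat.one_pos
  have h1 := Nat.lt_size.1 h
  have h2 : 2 ^ n.size = 2 * 2 ^ (n.size - 1) := by
    rw [← pow_succ']
    congr 1
    omega
  omega

theorem pf_LOW : T_OUT → T_MS → T_MO → T_ME → T_NEW → T_PRS → T_GR → T_ASY → T_LOW := by
  intro hOUT hMS hMO hME hNEW hPRS hGR hASY e U hU V τ hV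
  obtain ⟨c, k, hc⟩ := hU V
  obtain ⟨B, hB⟩ := hMS U
  obtain ⟨B₁, hB₁⟩ := hOUT U
  obtain ⟨L, hL⟩ : ∃ L, L = c.length := ⟨_, rfl⟩
  filter_upwards [hASY (2 ^ (2 * L + 2) * (B * (2 * L + 3) ^ 3 + 1) + 2 * L + 10) e k]
    with n hn
  obtain ⟨h1, h2, h3, h4⟩ := hn
  obtain ⟨A, hA⟩ : ∃ A, A = 2 ^ (2 * L + 2) * (B * (2 * L + 3) ^ 3 + 1) + 2 * L + 10 := ⟨_, rfl⟩
  rw [← hA] at h1 h2 h3 h4
  by_contra hlt
  push Not at hlt
  have hA' : 2 * L + 10 ≤ A := by omega
  have hAA : 2 ^ (2 * L + 2) * (B * (2 * L + 3) ^ 3 + 1) ≤ A := by omega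
  have hprs := hPRS.1 c n
  have hlen := hPRS.2.2.2 c n
  have hen : (en c).length = 2 * c.length + 1 := by
    have : (code c n).length = (en c).length + n.size := by
      unfold code
      rw [List.length_append, List.length_reverse, Nat.size_eq_bits_len]
    omega
  obtain ⟨w, hw⟩ : ∃ w, w = ww U (code c n) := ⟨_, rfl⟩
  obtain ⟨g1, g2, g3⟩ := hNEW U c n (by omega) (by omega)
  rw [← hw] at g1 g2 g3
  obtain ⟨M, hM⟩ : ∃ M, M = 2 ^ (n - 5 * n.size) := ⟨_, rfl⟩
  have hM1 : 1 ≤ M := by rw [hM]; exact Nat.one_le_two_pow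
  rw [← hM] at g3 h2 h3
  have hwne : w ≠ [] := by
    rintro rfl
    simp at g1
    omega
  -- the run of `U` on `c ++ w`
  have hkey : ∀ χ : Bool, V.Outputs w [χ] (τ n) →
      (at' U M (c ++ w)).l = none ∧ rawOut U M (c ++ w) = [χ] := by
    intro χ hχ
    have hc1 := hc w [χ] (τ n) hχ
    obtain ⟨T₀, hT₀, ha, -, hb, -, -⟩ := hB₁ _ _ _ hc1
    have hT₁ : T₀ ≤ M := by
      refine hT₀.trans (le_trans ?_ h3)
      refine Nat.mul_le_mul_left k (Nat.pow_le_pow_left ?_ e)
      rw [g1]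
      omega
    have he := at_halt U (c ++ w) ha hT₁
    refine ⟨by rw [he]; exact ha, ?_⟩
    unfold rawOut at hb ⊢
    rw [he]
    exact hb
  have hso : ∀ χ : Bool, V.Outputs w [χ] (τ n) →
      so U (code c n) = if χ then w else [] := by
    intro χ hχ
    obtain ⟨ha, hb⟩ := hkey χ hχ
    unfold so
    rw [hprs]
    simp only [List.reverse_reverse]
    rw [← hM, ← hw]
    have hacc : acc U M (c ++ w) = χ := by
      unfold acc
      rw [hb, ha]
      simp
    rw [hacc]
    simp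
  obtain ⟨hV1, hV2⟩ := hV w
  rw [g1] at hV1 hV2
  by_cases hR : w ∈ RKt (mod U)
  · have hs := hso true (hV1 hR)
    rw [if_pos rfl] at hs
    have hout := (hB (code c n)).1
    rw [hs, hprs] at hout
    simp only at hout
    rw [← hM] at hout
    have hr := hR _ _ hout
    rw [g1] at hr
    have hr2 := pow_le_of_logb _ _ _ hr
    rw [List.length_cons, hlen, ← hL] at hr2
    have hsz := size_le n
    have hb1 : 2 * L + 1 + n.size + n + 2 ≤ (2 * L + 3) * (n + 1) := by nlinarith
    have hb2 : B * (2 * L + 1 + n.size + n + 2) ^ 3 * M + 1 ≤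
        (B * (2 * L + 3) ^ 3 + 1) * ((n + 1) ^ 3 * M) := by
      have hb3 : (2 * L + 1 + n.size + n + 2) ^ 3 ≤ (2 * L + 3) ^ 3 * (n + 1) ^ 3 := by
        rw [← mul_pow]
        exact Nat.pow_le_pow_left hb1 3
      have hb4 : 1 ≤ (n + 1) ^ 3 * M := Nat.one_le_iff_ne_zero.2 (by positivity)
      calc B * (2 * L + 1 + n.size + n + 2) ^ 3 * M + 1
          ≤ B * ((2 * L + 3) ^ 3 * (n + 1) ^ 3) * M + (n + 1) ^ 3 * M := by
            refine Nat.add_le_add (Nat.mul_le_mul_right _ (Nat.mul_le_mul_left _ hb3)) hb4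
        _ = (B * (2 * L + 3) ^ 3 + 1) * ((n + 1) ^ 3 * M) := by ring
    have hb5 : 2 ^ (2 * L + 1 + n.size + 1) = 2 ^ (2 * L + 2) * 2 ^ n.size := by
      rw [← pow_add]
      congr 1
      omega
    rw [hb5] at hr2
    have hb6 : 2 ^ n ≤ A * (n + 1) ^ 3 * 2 ^ n.size * M := by
      calc 2 ^ n ≤ 2 ^ (2 * L + 2) * 2 ^ n.size *
            (B * (2 * L + 1 + n.size + n + 2) ^ 3 * M + 1) := hr2
        _ ≤ 2 ^ (2 * L + 2) * 2 ^ n.size * ((B * (2 * L + 3) ^ 3 + 1) * ((n + 1) ^ 3 * M)) :=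
            Nat.mul_le_mul_left _ hb2
        _ = (2 ^ (2 * L + 2) * (B * (2 * L + 3) ^ 3 + 1)) * ((n + 1) ^ 3 * 2 ^ n.size * M) := by
            ring
        _ ≤ A * ((n + 1) ^ 3 * 2 ^ n.size * M) := Nat.mul_le_mul_right _ hAA
        _ = A * (n + 1) ^ 3 * 2 ^ n.size * M := by ring
    omega
  · obtain ⟨ha, hb⟩ := hkey false (hV2 hR)
    have hR' : ∃ d t, (mod U).Outputs d w t ∧ (d.length : ℝ) + Real.logb 2 t < n := by
      by_contra hcon
      push Not at hcon
      exact hR fun d t hd => by rw [g1]; exact hcon d t hd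
    obtain ⟨d, t, hd, hlt'⟩ := hR'
    rcases d with _ | ⟨b, x⟩
    · exact hwne (hME U w t hd)
    cases b
    · -- ordinary program
      obtain ⟨T, hT1, hT2, hT3, hT4⟩ := (hMO U).2 x w t hd
      have hT0 : T ≠ 0 := by
        rintro rfl
        have : (at' U 0 x).l = some U.tm.main := rfl
        rw [this] at hT1
        cases hT1
      have hnpos : 0 < n := by omega
      have hsz := two_pow_size_le n hnpos
      rw [g1] at hT4
      have ht1 : 1 ≤ t := by
        refine le_trans ?_ hT4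
        exact Nat.one_le_iff_ne_zero.2 (by positivity)
      have hq := pow_lt_of_logb _ _ _ ht1 hlt'
      have hg := g3 x T hT1 hT3.symm
      have h5 : 2 ^ (5 * n.size) ≤ (2 * n) ^ 5 := by
        rw [mul_comm 5, pow_mul]
        exact Nat.pow_le_pow_left hsz 5
      have h6 : M * 2 ^ (5 * n.size) = 2 ^ n := by
        rw [hM, ← pow_add]
        congr 1
        omega
      have h7 : M * 2 ^ (5 * n.size) < 2 ^ (false :: x).length * t := by
        calc M * 2 ^ (5 * n.size) < 2 ^ x.length * T * 2 ^ (5 * n.size) :=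
              Nat.mul_lt_mul_of_pos_right hg (by positivity)
          _ ≤ 2 ^ x.length * T * (2 * n) ^ 5 := Nat.mul_le_mul_left _ h5
          _ = 2 ^ x.length * ((2 * n) ^ 5 * T) := by ring
          _ ≤ 2 ^ x.length * t := Nat.mul_le_mul_left _ hT4
          _ ≤ 2 ^ (false :: x).length * t :=
              Nat.mul_le_mul_right _ (Nat.pow_le_pow_right (by norm_num) (by simp))
      omega
    · -- special program
      have hwx := (hB x).2 w t hd
      unfold so at hwx
      split_ifs at hwx with hcond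
      · rw [Bool.and_eq_true, beq_iff_eq] at hcond
        obtain ⟨hc1, hc2⟩ := hcond
        have hpr := hPRS.2.1 x hc2
        have hpre : en (prs x).cr.reverse <+: w := by
          rw [hwx, ← hpr]
          unfold ww
          exact (hGR U _ _ _).1
        have hcc := hPRS.2.2.1 c _ w g2 hpre
        rw [← hwx, ← hcc] at hc1
        unfold acc at hc1
        rw [Bool.and_eq_true, Option.isNone_iff_eq_none] at hc1
        have he := at_halt₂ U (c ++ w) ha hc1.2
        have hc3 := hc1.1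
        unfold rawOut at hc3 hb
        rw [he, hb] at hc3
        simp at hc3
      · exact hwne hwx

end Pool.Agent.H4.KT
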