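import Pool.Agent.H49.KT.Targets

/-!
Module PAR of the board kt_modules: the parser.
-/

namespace Pool.Agent.H4.KT

open Turing Function Filter
open Pool.Agent.H49.KT

/-- working stacks while parsing, parser state `s` -/
def Zp (z : Nm → List Bool) (s : PS) : Nm → List Bool :=
  update (update (update (update (update z .inp []) .cr s.cr) .pr s.pr) .n (un s.n)) .lam
    (un s.lam)

theorem Zp_ext (z z' : Nm → List Bool) (s s' : PS) (h : update z .inp [] = update z' .inp [])
    (hs : s = s') : Zp z s = Zp z' s' := by
  subst hs; unfold Zp; rw [h]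

theorem pstep_n_le (s : PS) (a : Bool) : s.n ≤ (pstep s a).n := by
  unfold pstep
  split_ifs <;> simp <;> omega

theorem foldl_n_le (l : List Bool) : ∀ s : PS, s.n ≤ (l.foldl pstep s).n := by
  induction l with
  | nil => intro s; exact le_rfl
  | cons a l ih => intro s; exact (pstep_n_le s a).trans (ih _)

theorem prs_take_le (x : List Bool) (i : ℕ) : (prs (x.take i)).n ≤ (prs x).n := by
  have h : prs x = (x.drop i).foldl pstep (prs (x.take i)) := by
    unfold prs
    rw [← List.foldl_append, List.take_append_drop]
  rw [h]
  exact foldl_n_le _ _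

theorem body_spec (hD : T_DBL) (U : BM) (v : MM U) (u : UU U) (z : Nm → List Bool) (s : PS)
    (hn' : z .n' = []) (hm : v.mode = s.mode) :
    ∃ v' : MM U, v'.l = v.l ∧ v'.u = v.u ∧ v'.mode = (pstep s v.a).mode ∧
      Spec pbody (mkS v u (Zp z s)) (mkS v' u (Zp z (pstep s v.a))) (7 * s.n + 9) := by
  by_cases h0 : s.mode = 0
  · have hm0 : v.mode = 0 := hm.trans h0
    cases ha : v.a
    · refine ⟨v.sm 2, rfl, rfl, ?_, ?_⟩
      · simp [pstep, h0]
      · have e := Spec.ite_t (p := fun v : MM U => v.mode == 0) (c₂ := .ite (fun v => v.mode == 1)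
          (.seq (pushc .pr true) (.seq (pusha .pr) (.seq (pusha .cr)
            (.load (fun v => v.sm 0)))))
          (.seq (pushc .lam true) (.seq (.load (fun v => v.sb v.a))
            (.seq (dbl .n .n') (.ite (fun v => v.b) (pushc .n true) skip)))))
          (s := mkS v u (Zp z s)) (by simp [hm0])
          (Spec.ite_f (p := fun v : MM U => v.a) (c₁ := .load (fun v => v.sm 1)) ha
            ((sp_pushc v u (Zp z s) .pr false).seq (sp_load v u _ (fun v => v.sm 2))))
        refine ⟨e.1.trans (congrArg _ ?_), e.2.trans (by omega)⟩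
        funext k
        cases k <;> simp [update, Zp, pstep, h0]
    · refine ⟨v.sm 1, rfl, rfl, ?_, ?_⟩
      · simp [pstep, h0]
      · have e := Spec.ite_t (p := fun v : MM U => v.mode == 0) (c₂ := .ite (fun v => v.mode == 1)
          (.seq (pushc .pr true) (.seq (pusha .pr) (.seq (pusha .cr)
            (.load (fun v => v.sm 0)))))
          (.seq (pushc .lam true) (.seq (.load (fun v => v.sb v.a))
            (.seq (dbl .n .n') (.ite (fun v => v.b) (pushc .n true) skip)))))
          (s := mkS v u (Zp z s)) (by simp [hm0])
          (Spec.ite_t (p := fun v : MM U => v.a)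
            (c₂ := .seq (pushc .pr false) (.load (fun v => v.sm 2))) ha
            (sp_load v u (Zp z s) (fun v => v.sm 1)))
        refine ⟨e.1.trans (congrArg _ ?_), e.2.trans (by omega)⟩
        funext k
        cases k <;> simp [update, Zp, pstep, h0]
  · have hm0 : v.mode ≠ 0 := fun h => h0 (hm.symm.trans h)
    by_cases h1 : s.mode = 1
    · have hm1 : v.mode = 1 := hm.trans h1
      refine ⟨v.sm 0, rfl, rfl, ?_, ?_⟩
      · simp [pstep, h1]
      · have e := Spec.ite_f (p := fun v : MM U => v.mode == 0)
          (c₁ := .ite (fun v => v.a) (.load (fun v => v.sm 1))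
            (.seq (pushc .pr false) (.load (fun v => v.sm 2))))
          (s := mkS v u (Zp z s)) (by simp [hm0])
          (Spec.ite_t (p := fun v : MM U => v.mode == 1)
            (c₂ := .seq (pushc .lam true) (.seq (.load (fun v => v.sb v.a))
            (.seq (dbl .n .n') (.ite (fun v => v.b) (pushc .n true) skip)))) (by simp [hm1])
            ((sp_pushc v u (Zp z s) .pr true).seq ((sp_pusha v u _ .pr).seq
              ((sp_pusha v u _ .cr).seq (sp_load v u _ (fun v => v.sm 0))))))
        refine ⟨e.1.trans (congrArg _ ?_), e.2.trans (by omega)⟩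
        funext k
        cases k <;> simp [update, Zp, pstep, h1]
    · have hm1 : v.mode ≠ 1 := fun h => h1 (hm.symm.trans h)
      have eD := hD U (v.sb v.a) u (update (Zp z s) .lam (true :: (Zp z s) .lam)) .n .n' s.n
        (by decide) (by simp [Zp, update]) (by simp [Zp, update, hn'])
      cases ha : v.a
      · rw [ha] at eD
        refine ⟨(v.sb false).sa false, rfl, rfl, ?_, ?_⟩
        · simp only [pstep, h0, h1, if_false]
          exact hm
        · have e3 := Spec.ite_f (p := fun v : MM U => v.b) (c₁ := pushc .n true)
            (s := mkS ((v.sb false).sa false) u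
              (update (update (Zp z s) .lam (true :: (Zp z s) .lam)) .n (un (2 * s.n)))) rfl
            (sp_skip _ _ _)
          have e := Spec.ite_f (p := fun v : MM U => v.mode == 0)
            (c₁ := .ite (fun v => v.a) (.load (fun v => v.sm 1))
              (.seq (pushc .pr false) (.load (fun v => v.sm 2))))
            (s := mkS v u (Zp z s)) (by simp [hm0])
            (Spec.ite_f (p := fun v : MM U => v.mode == 1)
              (c₁ := .seq (pushc .pr true) (.seq (pusha .pr) (.seq (pusha .cr)
                (.load (fun v => v.sm 0))))) (by simp [hm1])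
              ((sp_pushc v u (Zp z s) .lam true).seq
                ((sp_load v u _ (fun v => v.sb v.a)).seq (by rw [ha]; exact eD.seq e3))))
          refine ⟨e.1.trans (congrArg _ ?_), e.2.trans (by omega)⟩
          funext k
          cases k <;> simp [update, Zp, pstep, h0, h1, List.replicate_succ]
      · rw [ha] at eD
        refine ⟨(v.sb true).sa false, rfl, rfl, ?_, ?_⟩
        · simp only [pstep, h0, h1, if_false]
          exact hm
        · have e3 := Spec.ite_t (p := fun v : MM U => v.b) (c₂ := skip)
            (s := mkS ((v.sb true).sa false) u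
              (update (update (Zp z s) .lam (true :: (Zp z s) .lam)) .n (un (2 * s.n)))) rfl
            (sp_pushc _ _ _ .n true)
          have e := Spec.ite_f (p := fun v : MM U => v.mode == 0)
            (c₁ := .ite (fun v => v.a) (.load (fun v => v.sm 1))
              (.seq (pushc .pr false) (.load (fun v => v.sm 2))))
            (s := mkS v u (Zp z s)) (by simp [hm0])
            (Spec.ite_f (p := fun v : MM U => v.mode == 1)
              (c₁ := .seq (pushc .pr true) (.seq (pusha .pr) (.seq (pusha .cr)
                (.load (fun v => v.sm 0))))) (by simp [hm1])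
              ((sp_pushc v u (Zp z s) .lam true).seq
                ((sp_load v u _ (fun v => v.sb v.a)).seq (by rw [ha]; exact eD.seq e3))))
          refine ⟨e.1.trans (congrArg _ ?_), e.2.trans (by omega)⟩
          funext k
          cases k <;> simp [update, Zp, pstep, h0, h1, List.replicate_succ]

theorem pf_PAR : T_DBL → T_PAR := by
  intro hD U v u z x hx hcr hpr hn hn' hlam hmode
  obtain ⟨v₂, u₂, z₂, ⟨h1, h2, h3, rfl, rfl⟩, ha, hS⟩ := sp_lp_inv (v := v) (u := u)
    (z := z) (x := .inp) (c := pbody) x hx
    (fun i v' u' z' => v'.l = v.l ∧ v'.u = v.u ∧ v'.mode = (prs (x.take i)).mode ∧ u' = u ∧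
      z' = Zp z (prs (x.take i)))
    (fun i => 7 * (prs (x.take i)).n + 9)
    (by rintro i v' u' z' a ⟨h1, h2, h3, h4⟩; exact ⟨h1, h2, h3, h4⟩)
    (by
      refine ⟨rfl, rfl, ?_, rfl, ?_⟩
      · simp [prs, hmode]
      · funext k
        cases k <;> simp [update, Zp, prs, hcr, hpr, hn, hlam])
    (by
      rintro i hi v' u' z' ⟨h1, h2, h3, rfl, rfl⟩ ha
      obtain ⟨v₁, g1, g2, g3, g4⟩ := body_spec hD U v' u' z (prs (x.take i)) hn' h3
      have hp : pstep (prs (x.take i)) v'.a = prs (x.take (i + 1)) := by
        rw [List.take_succ_eq_append_getElem hi, ha]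
        unfold prs
        rw [List.foldl_append]
        rfl
      rw [hp] at g3 g4
      exact ⟨v₁, _, _, ⟨g1.trans h1, g2.trans h2, g3, rfl, rfl⟩, g4⟩)
  rw [List.take_length] at h3
  rw [List.take_length] at hS
  refine ⟨v₂, h1, h2, h3, hS.mono ?_⟩
  have hsum : ∑ i ∈ Finset.range x.length, (7 * (prs (x.take i)).n + 9 + 1) ≤
      ∑ _i ∈ Finset.range x.length, (7 * (prs x).n + 10) :=
    Finset.sum_le_sum fun i _ => by
      have := prs_take_le x i
      omega
  rw [Finset.sum_const, Finset.card_range, smul_eq_mul] at hsum
  refine (Nat.add_le_add_left hsum 1).trans ?_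
  nlinarith [Nat.zero_le (x.length * (prs x).n), Nat.zero_le x.length, Nat.zero_le (prs x).n]

end Pool.Agent.H4.KT
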